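import Mathlib
import Pool.Agent.N788.NL.Fin

/-! Products of values of the Möbius function at fixed shifts against nilsequences, at all but few
scales. -/

namespace Pool.Agent.Results.MP_663568_nt.NilsequencesFixedShifts

open Finset Polynomial
open Pool.Agent.N318.LS (Uni rl Nilm ev)

/-- the Möbius function of `|m|` -/
noncomputable def mu (m : ℤ) : ℝ := (ArithmeticFunction.moebius m.natAbs : ℝ)

/-- the sum over `1 ≤ n ≤ x` of `∏ i, μ(|a i * n + b i|) ^ c i * u n` -/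
noncomputable def corr {k : ℕ} (a b : Fin k → ℤ) (c : Fin k → ℕ) (u : ℕ → ℂ) (x : ℕ) : ℂ :=
  ∑ n ∈ Icc 1 x, ((∏ i, mu (a i * (n : ℤ) + b i) ^ c i : ℝ) : ℂ) * u n

open Classical in
/-- the factors with odd exponents -/
noncomputable def oddSet {k : ℕ} (c : Fin k → ℕ) : Finset (Fin k) :=
  (Finset.univ : Finset (Fin k)).filter (fun i => Odd (c i))

lemma corr_eq {k : ℕ} (a b : Fin k → ℤ) (c : Fin k → ℕ) (u : ℕ → ℂ) (x : ℕ) :
    corr a b c u x = ∑ n ∈ Icc (1 : ℤ) x, (Pool.Agent.N788.PP.wt a b c n : ℂ) * u n.toNat := by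
  classical
  unfold corr Pool.Agent.N788.PP.wt
  have h : Icc (1 : ℤ) x = (Icc 1 x).image (fun n : ℕ => (n : ℤ)) := by
    ext z
    rw [mem_image, mem_Icc]
    constructor
    · intro hz
      exact ⟨z.toNat, mem_Icc.2 ⟨by omega, by omega⟩, by omega⟩
    · rintro ⟨n, hn, rfl⟩
      rw [mem_Icc] at hn
      omega
  rw [h, sum_image (fun a _ b _ hab => by exact_mod_cast hab)]
  refine sum_congr rfl fun n _ => ?_
  rw [Int.toNat_natCast]
  rfl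

theorem result {k : ℕ} (a b : Fin k → ℤ) (ha : ∀ i, a i ≠ 0) (c : Fin k → ℕ)
    (hc : Odd (oddSet c).card ∨
      ((oddSet c).card = 2 ∧ ∃ i ∈ oddSet c, ∃ j ∈ oddSet c, a i * b j ≠ a j * b i))
    {m : ℕ} {G : Set (Matrix (Fin m) (Fin m) ℝ)} (hG : Nilm G) (F : Matrix (Fin m) (Fin m) ℝ → ℂ)
    (hF : ContinuousOn F G)
    (hFi : ∀ A ∈ G, ∀ g : Matrix (Fin m) (Fin m) ℤ, rl g ∈ G → F (A * rl g) = F A)
    (D R : ℕ) (ε : ℝ) (hε : 0 < ε) :
    ∃ C : ℝ, ∀ J : ℕ, ∃ N₀ : ℕ, ∀ N : ℕ, N₀ ≤ N →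
      ∃ S : Finset ℕ, S ⊆ Icc 1 J ∧ ∑ i ∈ S, 1 / (i : ℝ) ≤ C ∧
        ∀ i : ℕ, 1 ≤ i → i ≤ J → i ∉ S → ∀ x : ℕ, N ≤ R * 2 ^ i * x → 2 ^ i * x ≤ R * N →
          (∀ Q : Matrix (Fin m) (Fin m) ℝ[X], (∀ t : ℕ, ev Q t ∈ G) →
            (∀ u v, (Q u v).natDegree ≤ D) → ‖corr a b c (fun n => F (ev Q n)) x‖ ≤ ε * x) ∧
          ∀ A ∈ G, ∀ y ∈ G, ‖corr a b c (fun n => F (A ^ n * y)) x‖ ≤ ε * x := by
  classical
  obtain ⟨C, hC⟩ := Pool.Agent.N788.NL.mu_nil a b ha c (oddSet c)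
    (fun i => by unfold oddSet; simp) hc hG hF hFi (max D m) R ε hε
  refine ⟨C, fun J => ?_⟩
  obtain ⟨N₀, hN₀⟩ := hC J
  refine ⟨N₀, fun N hN => ⟨_, Finset.filter_subset _ _, hN₀ N hN,
    fun i hi hiJ hiS x h1 h2 => ?_⟩⟩
  have key : ∀ Q : Matrix (Fin m) (Fin m) ℝ[X], (∀ t : ℕ, ev Q t ∈ G) →
      (∀ u v, (Q u v).natDegree ≤ max D m) → ‖corr a b c (fun n => F (ev Q n)) x‖ ≤ ε * x := by
    intro Q hQG hQd
    by_contra h
    push Not at h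
    apply hiS
    rw [Finset.mem_filter]
    rw [corr_eq] at h
    exact ⟨Finset.mem_Icc.2 ⟨hi, hiJ⟩, x, ⟨h1, h2⟩, Q, hQG, hQd, h⟩
  refine ⟨fun Q hQG hQd => key Q hQG fun u v => (hQd u v).trans (le_max_left _ _), fun A hA y hy => ?_⟩
  obtain ⟨Q, _, hQd, hQe⟩ := Pool.Agent.N318.LS.pow_poly (hG.uni A hA) (hG.uni y hy)
  have hQe' : ∀ n : ℕ, ev Q n = A ^ n * y := fun n => hQe n
  have hpow : ∀ n : ℕ, A ^ n * y ∈ G := by
    intro n
    induction n with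
    | zero => rwa [pow_zero, one_mul]
    | succ n ih =>
      rw [pow_succ', mul_assoc]
      exact hG.mul A hA _ ih
  have h3 := key Q (fun t => by rw [hQe']; exact hpow t) fun u v => (hQd u v).trans (le_max_right _ _)
  simp only [hQe'] at h3
  exact h3

end Pool.Agent.Results.MP_663568_nt.NilsequencesFixedShifts
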