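import Mathlib
import Pool.Agent.N318.LS.L

/-!
# Short interval disjointness from nilrotations after random sign changes at the primes (helper318)

Let `e p` be independent random signs, not necessarily fair, and `g` any function bounded by `1`, for instance the Möbius
function. Almost surely the function `f(n) = g(n) ∏ e_p ^ v_p(n)` is disjoint from all nilrotations, and from all polynomial
orbits on nilmanifolds, in short intervals, in logarithmic mean, uniformly over all rotations and starting points, which may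
depend on the interval; on the nilmanifolds `U_m(ℝ)/U_m(ℤ)` the mean of the suprema over the rotations of the sums of length
`H` is `O(√(H log H))`.
-/

set_option autoImplicit false

namespace Pool.Agent.Results.MP_663568_nt.RandomPrimeSigns

open Finset MeasureTheory ProbabilityTheory Filter Polynomial
open Pool.Agent.N318.LS (Uni Inv LipB rl Nilm ev MG)

/-- `g` with the sign changes `s p` at the primes: `n = ∏ p ^ k` goes to `g n * ∏ (s p) ^ k` -/
noncomputable def change (g : ℕ → ℂ) (s : ℕ → ℝ) (n : ℕ) : ℂ :=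
  g n * ((n.factorization.prod (fun p k => s p ^ k) : ℝ) : ℂ)

/-- the sum over the primes `p ≤ X` of `(1 - |E e p|) / p`; here `1 - |E e p|` is twice the minimum of
the probabilities of `e p = 1` and `e p = -1` -/
noncomputable def randomness {Ω : Type} [MeasurableSpace Ω] (P : Measure Ω) (e : ℕ → Ω → ℝ)
    (X : ℕ) : ℝ :=
  ∑ p ∈ (Icc 1 X).filter Nat.Prime, (1 - |∫ ω, e p ω ∂P|) / p

/-- `∑_{n ≤ N} |∑_{h ≤ H} a_n(h) f(n + h)| / n` -/
noncomputable def shortSum (f : ℕ → ℂ) (a : ℕ → ℕ → ℂ) (N H : ℕ) : ℝ :=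
  ∑ n ∈ Icc 1 N, ‖∑ h ∈ Icc 1 H, a n h * f (n + h)‖ / n

/-- There are constants `C(m, F, D)` such that the following holds for independent signs `e p` with
`∑_b exp(-R(2^(2^b))) < ∞`, `R(X) = ∑_{p ≤ X} (1 - |E e_p|)/p`, and for any function `g` bounded by `1`. Almost surely, for
`f(n) = g(n) ∏ e_p^{v_p(n)}`: (1) for all functions `F` on `U_m(ℝ)/U_m(ℤ)` (unitriangular matrices) which are Lipschitz on
the matrices with entries bounded by `2`, all `D`, all `H ≥ 2` and all large `N`, for all polynomial sequences `Q_n` in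
`U_m(ℝ)` of degree at most `D`, `∑_{n ≤ N} |∑_{h ≤ H} F(Q_n(h)) f(n + h)|/n ≤ C √(H log H) log N`; (2) in particular with
`F(g_n^(n+h) x_n)` for all `g_n`, `x_n` in `U_m(ℝ)`; (3) for all closed subgroups `G` of `U_m(ℝ)` with cocompact integer
points, all continuous `F` on the nilmanifold `G/G(ℤ)`, all `D`, `ε > 0`, all large `H` and, for each of them, all large `N`,
the sum with any polynomial sequences in `G` of degree at most `D` is at most `ε H log N`; (4) in particular with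
`F(g_n^(n+h) x_n)` for all `g_n`, `x_n` in `G`. -/
theorem result : ∃ C : (m : ℕ) → (Matrix (Fin m) (Fin m) ℝ → ℂ) → ℕ → ℝ,
    ∀ (Ω : Type) [MeasurableSpace Ω] (P : Measure Ω) [IsProbabilityMeasure P]
    (e : ℕ → Ω → ℝ), (∀ p, Measurable (e p)) → (∀ p ω, e p ω = 1 ∨ e p ω = -1) → iIndepFun e P →
    (Summable fun b : ℕ => Real.exp (- randomness P e (2 ^ (2 ^ b)))) →
    ∀ g : ℕ → ℂ, (∀ n, ‖g n‖ ≤ 1) →
    ∀ᵐ ω ∂P,
      (∀ (m : ℕ) (F : Matrix (Fin m) (Fin m) ℝ → ℂ), Inv F → (∃ K, LipB F K 2) → ∀ H : ℕ, 2 ≤ H →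
        (∀ D : ℕ, ∀ᶠ N : ℕ in atTop, ∀ Q : ℕ → Matrix (Fin m) (Fin m) ℝ[X], (∀ n, Uni (Q n)) →
          (∀ n i j, (Q n i j).natDegree ≤ D) →
          shortSum (change g fun p => e p ω) (fun n h => F (ev (Q n) h)) N H ≤
            C m F D * √(H * Real.log H) * Real.log N) ∧
        (∀ᶠ N : ℕ in atTop, ∀ A x : ℕ → Matrix (Fin m) (Fin m) ℝ, (∀ n, Uni (A n)) → (∀ n, Uni (x n)) →
          shortSum (change g fun p => e p ω) (fun n h => F (A n ^ (n + h) * x n)) N H ≤
            C m F m * √(H * Real.log H) * Real.log N)) ∧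
      (∀ (m : ℕ) (G : Set (Matrix (Fin m) (Fin m) ℝ)), Nilm G → ∀ F : Matrix (Fin m) (Fin m) ℝ → ℂ, ContinuousOn F G →
        (∀ A ∈ G, ∀ γ : Matrix (Fin m) (Fin m) ℤ, rl γ ∈ G → F (A * rl γ) = F A) → ∀ ε : ℝ, 0 < ε →
        (∀ D : ℕ, ∃ H₀ : ℕ, ∀ H : ℕ, H₀ ≤ H → ∀ᶠ N : ℕ in atTop, ∀ Q : ℕ → Matrix (Fin m) (Fin m) ℝ[X],
          (∀ n h, ev (Q n) h ∈ G) → (∀ n i j, (Q n i j).natDegree ≤ D) →
          shortSum (change g fun p => e p ω) (fun n h => F (ev (Q n) h)) N H ≤ ε * H * Real.log N) ∧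
        (∃ H₀ : ℕ, ∀ H : ℕ, H₀ ≤ H → ∀ᶠ N : ℕ in atTop, ∀ A x : ℕ → Matrix (Fin m) (Fin m) ℝ,
          (∀ n, A n ∈ G) → (∀ n, x n ∈ G) →
          shortSum (change g fun p => e p ω) (fun n h => F (A n ^ (n + h) * x n)) N H ≤ ε * H * Real.log N)) := by
  classical
  have hq : ∀ (m : ℕ) (F : Matrix (Fin m) (Fin m) ℝ → ℂ) (D : ℕ), ∃ C : ℝ, Inv F → (∃ K, LipB F K 2) →
      ∀ f : ℕ → ℂ, (∀ n, ‖f n‖ ≤ 1) → MG (fun n => (f n).re) → MG (fun n => (f n).im) → ∀ H : ℕ, 2 ≤ H →
      ∀ᶠ N : ℕ in atTop, ∀ Q : ℕ → Matrix (Fin m) (Fin m) ℝ[X], (∀ n, Uni (Q n)) → (∀ n i j, (Q n i j).natDegree ≤ D) →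
        ∑ n ∈ Icc 1 N, ‖∑ h ∈ Icc 1 H, F (ev (Q n) h) * f (n + h)‖ / n ≤ C * √(H * Real.log H) * Real.log N := by
    intro m F D
    by_cases hF : Inv F ∧ ∃ K, LipB F K 2
    · obtain ⟨hF1, K, hK⟩ := hF
      obtain ⟨C, hC⟩ := Pool.Agent.N318.LS.quant hF1 hK D
      exact ⟨C, fun _ _ => hC⟩
    · exact ⟨0, fun h1 h2 => absurd ⟨h1, h2⟩ hF⟩
  choose C hC using hq
  refine ⟨C, ?_⟩
  intro Ω _ P _ e hm he hind hS g hg
  have h1 := Pool.Agent.N318.LS.ae_MG (P := P) hm he hind hS (g := fun n => (g n).re)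
    (fun n => (Complex.abs_re_le_norm _).trans (hg n))
  have h2 := Pool.Agent.N318.LS.ae_MG (P := P) hm he hind hS (g := fun n => (g n).im)
    (fun n => (Complex.abs_im_le_norm _).trans (hg n))
  filter_upwards [h1, h2] with ω hω1 hω2
  have hf : ∀ n, ‖change g (fun p => e p ω) n‖ ≤ 1 := by
    intro n
    unfold change
    rw [norm_mul, Complex.norm_real, Real.norm_eq_abs]
    have := Pool.Agent.W136.RF.cm_abs (e := fun p => e p ω) (fun p => he p ω) n
    unfold Pool.Agent.W136.RF.cm at this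
    rw [this, mul_one]
    exact hg n
  have hr : MG (fun n => (change g (fun p => e p ω) n).re) := by
    have : (fun n => (change g (fun p => e p ω) n).re) =
        fun n => (g n).re * Pool.Agent.W136.RF.cm (fun p => e p ω) n := by
      funext n
      unfold change
      rw [Complex.re_mul_ofReal]
      rfl
    rw [this]
    exact hω1
  have hi : MG (fun n => (change g (fun p => e p ω) n).im) := by
    have : (fun n => (change g (fun p => e p ω) n).im) =
        fun n => (g n).im * Pool.Agent.W136.RF.cm (fun p => e p ω) n := by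
      funext n
      unfold change
      rw [Complex.im_mul_ofReal]
      rfl
    rw [this]
    exact hω2
  refine ⟨fun m F hF1 hF2 H hH => ⟨fun D => hC m F D hF1 hF2 _ hf hr hi H hH, ?_⟩,
    fun m G hG F hF hFi ε hε => ⟨fun D => Pool.Agent.N318.LS.qual hG hF hFi D hf hr hi hε, ?_⟩⟩
  · filter_upwards [hC m F m hF1 hF2 _ hf hr hi H hH] with N hN A x hA hx
    choose Q hQ hQd hQe using fun n => Pool.Agent.N318.LS.rot (hA n) (hx n) n
    have h3 := hN Q hQ hQd
    simp only [hQe] at h3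
    exact h3
  · obtain ⟨H₀, hH₀⟩ := Pool.Agent.N318.LS.qual hG hF hFi m hf hr hi hε
    refine ⟨H₀, fun H hH => ?_⟩
    filter_upwards [hH₀ H hH] with N hN A x hA hx
    choose Q hQ hQd hQe using fun n => Pool.Agent.N318.LS.rot (hG.uni _ (hA n)) (hG.uni _ (hx n)) n
    have h3 := hN Q (fun n h => by
      rw [hQe]
      exact Pool.Agent.N318.LS.pow_mem hG (hA n) (hx n) _) hQd
    simp only [hQe] at h3
    exact h3

end Pool.Agent.Results.MP_663568_nt.RandomPrimeSigns
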