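import Pool.Agent.N282.LU.Fin

/-!
# Logarithmic short-interval disjointness from nilrotations for random multiplicative functions, for all `N ≥ H`

Let `s_p` be independent random signs and `f(n) = μ(n) ∏_{p | n} s_p`, the standard random model of `μ`. Let `F` be a
Lipschitz function on the nilmanifold `U_m(ℝ)/U_m(ℤ)`. Almost surely, for all `N ≥ 2` and ALL `H ≥ 1`,
`∑_{n ≤ N} (1/n) sup_{g, x} |∑_{h ≤ H} F(g^(n+h) x) f(n+h)| ≤ C H^(1/2+ε) log N`, and the same holds for all polynomial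
sequences of bounded degree and for the sums without the weights `1/n`. For continuous functions on nilmanifolds `G/G(ℤ)`,
`G` a closed unitriangular group, the conclusion of Q1 holds for `f`: for all `N ≥ H ≥ H₀` the sum is at most `ε H log N`.

Proof. High moments of the sums over a window `(n, n+H]` against a net of `O(H^C)` sequences. The number of `2k`-tuples of
squarefree elements of a window with square product is `O(H^(k+1))` for ALL windows (Bonami's inequality if `n` is at most a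
power of `H`, no nontrivial tuples otherwise); for two windows `n, m < N` there are only `O(H^C N^(2-c))` nontrivial
solutions, so that the averages over `n` concentrate, uniformly in `N`.
-/

set_option autoImplicit false

open MeasureTheory Filter Topology Polynomial

namespace Pool.Agent.Results.MP_663568_nt.RandomSigns

/-- `f(n) = μ(n) ∏_{p | n} s_p`. -/
noncomputable def f (s : ℕ → ℝ) (n : ℕ) : ℝ :=
  ((ArithmeticFunction.moebius n : ℤ) : ℝ) * ∏ p ∈ n.primeFactors, s p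

/-- `∑_{n ≤ N} |∑_{h ≤ H} a_n(h) f(n + h)|` -/
noncomputable def meanSum (f : ℕ → ℝ) (a : ℕ → ℕ → ℂ) (N H : ℕ) : ℝ :=
  ∑ n ∈ Finset.Icc 1 N, ‖∑ h ∈ Finset.Icc 1 H, a n h * (f (n + h) : ℂ)‖

/-- `∑_{n ≤ N} |∑_{h ≤ H} a_n(h) f(n + h)| / n` -/
noncomputable def logSum (f : ℕ → ℝ) (a : ℕ → ℕ → ℂ) (N H : ℕ) : ℝ :=
  ∑ n ∈ Finset.Icc 1 N, ‖∑ h ∈ Finset.Icc 1 H, a n h * (f (n + h) : ℂ)‖ / n

/-- unitriangular -/
def Uni {m : ℕ} {R : Type} [Zero R] [One R] (A : Matrix (Fin m) (Fin m) R) : Prop :=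
  (∀ i, A i i = 1) ∧ ∀ i j, j < i → A i j = 0

/-- an integer matrix as a real matrix -/
def rl {m : ℕ} (g : Matrix (Fin m) (Fin m) ℤ) : Matrix (Fin m) (Fin m) ℝ := g.map (fun z => (z : ℝ))

/-- `F` is a Lipschitz function on `U_m(ℝ)/U_m(ℤ)`: invariant under the integer unitriangular matrices on the right, and
Lipschitz on the unitriangular matrices with entries bounded by `2` -/
def LipNil {m : ℕ} (F : Matrix (Fin m) (Fin m) ℝ → ℂ) : Prop :=
  (∀ (A : Matrix (Fin m) (Fin m) ℝ) (g : Matrix (Fin m) (Fin m) ℤ), Uni A → Uni g → F (A * rl g) = F A) ∧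
  ∃ K : ℝ, ∀ A B : Matrix (Fin m) (Fin m) ℝ, Uni A → Uni B → (∀ i j, |A i j| ≤ 2 ∧ |B i j| ≤ 2) → ∀ η : ℝ,
    (∀ i j, |A i j - B i j| ≤ η) → ‖F A - F B‖ ≤ K * η

/-- `G` is a closed group of unitriangular real matrices whose integer points are cocompact. -/
structure Nilm {m : ℕ} (G : Set (Matrix (Fin m) (Fin m) ℝ)) : Prop where
  uni : ∀ A ∈ G, Uni A
  mul : ∀ A ∈ G, ∀ B ∈ G, A * B ∈ G
  inv : ∀ A ∈ G, ∃ B ∈ G, A * B = 1
  closed : IsClosed G
  cocompact : ∃ R : ℝ, ∀ A ∈ G, ∃ a ∈ G, ∃ g : Matrix (Fin m) (Fin m) ℤ, rl g ∈ G ∧ A = a * rl g ∧ ∀ i j, |a i j| ≤ R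

/-- the value at `h` of a matrix of polynomials -/
noncomputable def ev {m : ℕ} (Q : Matrix (Fin m) (Fin m) ℝ[X]) (h : ℕ) : Matrix (Fin m) (Fin m) ℝ :=
  fun i j => (Q i j).eval (h : ℝ)

/-- Let `s_p` be independent random signs, `f(n) = μ(n) ∏_{p | n} s_p`.
(1) For every Lipschitz function `F` on `U_m(ℝ)/U_m(ℤ)` and every `D`, almost surely: for every `ε > 0` there is `C` such
that for all `N ≥ 2` and all `H ≥ 1` and all polynomial sequences `Q_n` in `U_m(ℝ)` of degree at most `D`,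
`∑_{n ≤ N} |∑_{h ≤ H} F(Q_n(h)) f(n + h)| / n ≤ C H^(1/2+ε) log N` and
`∑_{n ≤ N} |∑_{h ≤ H} F(Q_n(h)) f(n + h)| ≤ C H^(1/2+ε) N`.
(2) In particular with `F(g_n^(n+h) x_n)`, for all `g_n, x_n` in `U_m(ℝ)`.
(3) For every nilmanifold `G/G(ℤ)`, `G` a closed unitriangular group with cocompact integer points, and every continuous
function `F` on it, almost surely: for every `ε > 0` there is `H₀` such that for ALL `N ≥ H ≥ H₀` and all `g_n, x_n` in `G`,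
`∑_{n ≤ N} |∑_{h ≤ H} F(g_n^(n+h) x_n) f(n + h)| / n ≤ ε H log N`. -/
theorem result {Ω : Type} [MeasurableSpace Ω] (P : Measure Ω) [IsProbabilityMeasure P] (s : ℕ → Ω → ℝ)
    (hm : ∀ p, Measurable (s p)) (hs : ∀ p ω, s p ω = 1 ∨ s p ω = -1) (h0 : ∀ p, ∫ ω, s p ω ∂P = 0)
    (hi : ProbabilityTheory.iIndepFun s P) :
    (∀ (m : ℕ) (F : Matrix (Fin m) (Fin m) ℝ → ℂ), LipNil F → ∀ D : ℕ, ∀ᵐ ω ∂P, ∀ ε : ℝ, 0 < ε →
      ∃ C : ℝ, ∀ N H : ℕ, 2 ≤ N → 1 ≤ H → ∀ Q : ℕ → Matrix (Fin m) (Fin m) ℝ[X], (∀ n, Uni (Q n)) →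
        (∀ n i j, (Q n i j).natDegree ≤ D) →
          logSum (f fun p => s p ω) (fun n h => F (ev (Q n) h)) N H ≤ C * (H : ℝ) ^ (1 / 2 + ε) * Real.log N ∧
          meanSum (f fun p => s p ω) (fun n h => F (ev (Q n) h)) N H ≤ C * (H : ℝ) ^ (1 / 2 + ε) * N) ∧
    (∀ (m : ℕ) (F : Matrix (Fin m) (Fin m) ℝ → ℂ), LipNil F → ∀ᵐ ω ∂P, ∀ ε : ℝ, 0 < ε →
      ∃ C : ℝ, ∀ N H : ℕ, 2 ≤ N → 1 ≤ H → ∀ g x : ℕ → Matrix (Fin m) (Fin m) ℝ, (∀ n, Uni (g n)) → (∀ n, Uni (x n)) →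
          logSum (f fun p => s p ω) (fun n h => F (g n ^ (n + h) * x n)) N H ≤
            C * (H : ℝ) ^ (1 / 2 + ε) * Real.log N ∧
          meanSum (f fun p => s p ω) (fun n h => F (g n ^ (n + h) * x n)) N H ≤ C * (H : ℝ) ^ (1 / 2 + ε) * N) ∧
    (∀ (m : ℕ) (G : Set (Matrix (Fin m) (Fin m) ℝ)), Nilm G → ∀ F : Matrix (Fin m) (Fin m) ℝ → ℂ, ContinuousOn F G →
      (∀ A ∈ G, ∀ γ : Matrix (Fin m) (Fin m) ℤ, rl γ ∈ G → F (A * rl γ) = F A) → ∀ᵐ ω ∂P, ∀ ε : ℝ, 0 < ε →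
      ∃ H₀ : ℕ, ∀ N H : ℕ, H₀ ≤ H → H ≤ N → ∀ g x : ℕ → Matrix (Fin m) (Fin m) ℝ, (∀ n, g n ∈ G) → (∀ n, x n ∈ G) →
        logSum (f fun p => s p ω) (fun n h => F (g n ^ (n + h) * x n)) N H ≤ ε * H * Real.log N) := by
  have h1 : ∀ (m : ℕ) (F : Matrix (Fin m) (Fin m) ℝ → ℂ), LipNil F → ∀ D : ℕ, ∀ᵐ ω ∂P, ∀ ε : ℝ, 0 < ε →
      ∃ C : ℝ, ∀ N H : ℕ, 2 ≤ N → 1 ≤ H → ∀ Q : ℕ → Matrix (Fin m) (Fin m) ℝ[X], (∀ n, Uni (Q n)) →
        (∀ n i j, (Q n i j).natDegree ≤ D) →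
          logSum (f fun p => s p ω) (fun n h => F (ev (Q n) h)) N H ≤ C * (H : ℝ) ^ (1 / 2 + ε) * Real.log N ∧
          meanSum (f fun p => s p ω) (fun n h => F (ev (Q n) h)) N H ≤ C * (H : ℝ) ^ (1 / 2 + ε) * N := by
    intro m F hF D
    filter_upwards [Pool.Agent.N282.LU.Fin_quant P s hm hs h0 hi (F := F) (fun A g hA hg => hF.1 A g hA hg) hF.2 D] with ω hω
    intro ε hε
    obtain ⟨C, hC⟩ := hω ε hε
    refine ⟨C, fun N H hN hH Q hQ hQd => ?_⟩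
    obtain ⟨h2, h3⟩ := hC N H (by omega) hH Q hQ hQd
    exact ⟨h3 hN, h2⟩
  refine ⟨h1, ?_, ?_⟩
  · intro m F hF
    filter_upwards [h1 m F hF m] with ω hω
    intro ε hε
    obtain ⟨C, hC⟩ := hω ε hε
    refine ⟨C, fun N H hN hH g x hg hx => ?_⟩
    choose Q hQ hQd hQe using fun n => Pool.Agent.N318.LS.rot (hg n) (hx n) n
    have h3 := hC N H hN hH Q hQ hQd
    have e : (fun n h => F (ev (Q n) h)) = fun n h => F (g n ^ (n + h) * x n) := by
      funext n h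
      congr 1
      exact hQe n h
    rw [e] at h3
    exact h3
  · intro m G hG F hF hFi
    have hG' : Pool.Agent.N318.LS.Nilm G := ⟨hG.uni, hG.mul, hG.inv, hG.closed, hG.cocompact⟩
    filter_upwards [Pool.Agent.N282.LU.Fin_qual P s hm hs h0 hi hG' hF hFi m] with ω hω
    intro ε hε
    obtain ⟨H₀, hH₀⟩ := hω ε hε
    refine ⟨max H₀ 2, fun N H hH hHN g x hg hx => ?_⟩
    have hH1 : H₀ ≤ H := (le_max_left _ _).trans hH
    have hH2 : 2 ≤ H := (le_max_right _ _).trans hH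
    choose Q hQ hQd hQe using fun n => Pool.Agent.N318.LS.rot (hG.uni _ (hg n)) (hG.uni _ (hx n)) n
    have h3 := hH₀ N H (by omega) hH1 (by omega) Q (fun n h => by
      rw [hQe]
      exact Pool.Agent.N318.LS.pow_mem hG' (hg n) (hx n) _) hQd
    have e : (fun n h => F (Pool.Agent.N318.LS.ev (Q n) h)) = fun n h => F (g n ^ (n + h) * x n) := by
      funext n h
      rw [hQe n h]
    unfold logSum
    refine le_trans (le_of_eq ?_) h3
    refine Finset.sum_congr rfl fun n _ => ?_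
    congr 2
    refine Finset.sum_congr rfl fun h _ => ?_
    rw [hQe n h]
    rfl

end Pool.Agent.Results.MP_663568_nt.RandomSigns
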