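import Pool.Agent.N282.LU.Rc2

/-!
# Logarithmic short-interval disjointness from nilrotations for `μ` twisted by almost every real character

Let `f_d(n) = μ(n) (n/d)`, `(n/d)` the Jacobi symbol, and let `F` be a Lipschitz function on the nilmanifold
`U_m(ℝ)/U_m(ℤ)`. For all but `C D R₀^(-A)` of the odd `d ≤ D`, for ALL `H ≥ R₀` and `N` with `N, H ≤ D^c`,
`∑_{n ≤ N} (1/n) sup_{g, x} |∑_{h ≤ H} F(g^(n+h) x) f_d(n+h)| ≤ C H^(1/2+ε) log N`, and the same holds for all polynomial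
sequences of bounded degree and for the sums without the weights `1/n`. For continuous functions on nilmanifolds `G/G(ℤ)`,
`G` a closed unitriangular group, the bound of Q1, `ε H log N` for `R₀ ≤ H ≤ N ≤ D^c`, holds for the same proportion of `d`.
There is no hypothesis.

Proof. High moments over `d` of the sums over a window `(n, n+H]` against a net of `O(H^C)` sequences. The number of
`2k`-tuples of squarefree elements of a window with square product is `O(H^(k+1))` for ALL windows (Bonami's inequality if `n`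
is at most a power of `H`, no nontrivial tuples otherwise); for two windows `n, m < N` there are only `O(H^C N^(2-c))`
nontrivial solutions, so that the averages over `n` concentrate, uniformly in `N`. The Jacobi symbols `(n/d)` of nonsquares
`n` cancel over odd `d` by periodicity in `d`.
-/

set_option autoImplicit false

open MeasureTheory Filter Topology Polynomial

namespace Pool.Agent.Results.MP_663568_nt.RealCharacterTwists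

/-- `f_d(n) = μ(n) (n/d)`, where `(n/d)` is the Jacobi symbol. -/
noncomputable def f (d n : ℕ) : ℝ :=
  ((ArithmeticFunction.moebius n : ℤ) : ℝ) * ((jacobiSym n d : ℤ) : ℝ)

/-- `∑_{n ≤ N} |∑_{h ≤ H} a_n(h) f(n + h)|` -/
noncomputable def meanSum (f : ℕ → ℝ) (a : ℕ → ℕ → ℂ) (N H : ℕ) : ℝ :=
  ∑ n ∈ Finset.Icc 1 N, ‖∑ h ∈ Finset.Icc 1 H, a n h * (f (n + h) : ℂ)‖

/-- `∑_{n ≤ N} |∑_{h ≤ H} a_n(h) f(n + h)| / n` -/
noncomputable def logSum (f : ℕ → ℝ) (a : ℕ → ℕ → ℂ) (N H : ℕ) : ℝ :=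
  ∑ n ∈ Finset.Icc 1 N, ‖∑ h ∈ Finset.Icc 1 H, a n h * (f (n + h) : ℂ)‖ / n

/-- unitriangular -/
def Uni {m : ℕ} {R : Type} [Zero R] [One R] (A : Matrix (Fin m) (Fin m) R) : Prop :=
  (∀ i, A i i = 1) ∧ ∀ i j, j < i → A i j = 0

/-- an integer matrix as a real matrix -/
def rl {m : ℕ} (g : Matrix (Fin m) (Fin m) ℤ) : Matrix (Fin m) (Fin m) ℝ := g.map (fun z => (z : ℝ))

/-- `F` is a Lipschitz function on `U_m(ℝ)/U_m(ℤ)`: invariant under the integer unitriangular matrices on the right, and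
Lipschitz on the unitriangular matrices with entries bounded by `2` -/
def LipNil {m : ℕ} (F : Matrix (Fin m) (Fin m) ℝ → ℂ) : Prop :=
  (∀ (A : Matrix (Fin m) (Fin m) ℝ) (g : Matrix (Fin m) (Fin m) ℤ), Uni A → Uni g → F (A * rl g) = F A) ∧
  ∃ K : ℝ, ∀ A B : Matrix (Fin m) (Fin m) ℝ, Uni A → Uni B → (∀ i j, |A i j| ≤ 2 ∧ |B i j| ≤ 2) → ∀ η : ℝ,
    (∀ i j, |A i j - B i j| ≤ η) → ‖F A - F B‖ ≤ K * η

/-- `G` is a closed group of unitriangular real matrices whose integer points are cocompact. -/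
structure Nilm {m : ℕ} (G : Set (Matrix (Fin m) (Fin m) ℝ)) : Prop where
  uni : ∀ A ∈ G, Uni A
  mul : ∀ A ∈ G, ∀ B ∈ G, A * B ∈ G
  inv : ∀ A ∈ G, ∃ B ∈ G, A * B = 1
  closed : IsClosed G
  cocompact : ∃ R : ℝ, ∀ A ∈ G, ∃ a ∈ G, ∃ g : Matrix (Fin m) (Fin m) ℤ, rl g ∈ G ∧ A = a * rl g ∧ ∀ i j, |a i j| ≤ R

/-- the value at `h` of a matrix of polynomials -/
noncomputable def ev {m : ℕ} (Q : Matrix (Fin m) (Fin m) ℝ[X]) (h : ℕ) : Matrix (Fin m) (Fin m) ℝ :=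
  fun i j => (Q i j).eval (h : ℝ)

open Classical in
/-- (1) For every Lipschitz function `F` on `U_m(ℝ)/U_m(ℤ)`, every degree `D₀` and all `ε, A > 0` there are `c, C > 0` such
that for all `D` and `R₀ ≥ 1`, for all but `C D R₀^(-A)` of the odd `d ≤ D`: for all `N ≥ 2`, `H ≥ R₀` with `N, H ≤ D^c` and
all polynomial sequences `Q_n` in `U_m(ℝ)` of degree at most `D₀`,
`∑_{n ≤ N} |∑_{h ≤ H} F(Q_n(h)) f_d(n + h)| / n ≤ C H^(1/2+ε) log N` and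
`∑_{n ≤ N} |∑_{h ≤ H} F(Q_n(h)) f_d(n + h)| ≤ C H^(1/2+ε) N`.
(2) In particular with `F(g_n^(n+h) x_n)`, for all `g_n, x_n` in `U_m(ℝ)`.
(3) For every nilmanifold `G/G(ℤ)`, `G` a closed unitriangular group with cocompact integer points, every continuous
function `F` on it and all `ε, A > 0` there are `c, C > 0` such that for all `D` and `R₀ ≥ 1`, for all but `C D R₀^(-A)` of the
odd `d ≤ D`: for all `R₀ ≤ H ≤ N ≤ D^c` with `N ≥ 2` and all `g_n, x_n` in `G`,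
`∑_{n ≤ N} |∑_{h ≤ H} F(g_n^(n+h) x_n) f_d(n + h)| / n ≤ ε H log N`. -/
theorem result :
    (∀ (m : ℕ) (F : Matrix (Fin m) (Fin m) ℝ → ℂ), LipNil F → ∀ (D₀ : ℕ) (ε A : ℝ), 0 < ε → 0 < A →
      ∃ c C : ℝ, 0 < c ∧ 0 < C ∧ ∀ D R₀ : ℕ, 1 ≤ R₀ →
        (((Finset.Icc 1 D).filter fun d => Odd d ∧ ∃ N H : ℕ, R₀ ≤ H ∧ 2 ≤ N ∧ (N : ℝ) ≤ (D : ℝ) ^ c ∧
          (H : ℝ) ≤ (D : ℝ) ^ c ∧ ∃ Q : ℕ → Matrix (Fin m) (Fin m) ℝ[X],
            (∀ n, Uni (Q n)) ∧ (∀ n i j, (Q n i j).natDegree ≤ D₀) ∧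
            (C * (H : ℝ) ^ (1 / 2 + ε) * Real.log N < logSum (f d) (fun n h => F (ev (Q n) h)) N H ∨
              C * (H : ℝ) ^ (1 / 2 + ε) * N < meanSum (f d) (fun n h => F (ev (Q n) h)) N H)).card : ℝ) ≤
          C * D * (R₀ : ℝ) ^ (-A)) ∧
    (∀ (m : ℕ) (F : Matrix (Fin m) (Fin m) ℝ → ℂ), LipNil F → ∀ (ε A : ℝ), 0 < ε → 0 < A →
      ∃ c C : ℝ, 0 < c ∧ 0 < C ∧ ∀ D R₀ : ℕ, 1 ≤ R₀ →
        (((Finset.Icc 1 D).filter fun d => Odd d ∧ ∃ N H : ℕ, R₀ ≤ H ∧ 2 ≤ N ∧ (N : ℝ) ≤ (D : ℝ) ^ c ∧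
          (H : ℝ) ≤ (D : ℝ) ^ c ∧ ∃ g x : ℕ → Matrix (Fin m) (Fin m) ℝ, (∀ n, Uni (g n)) ∧ (∀ n, Uni (x n)) ∧
            (C * (H : ℝ) ^ (1 / 2 + ε) * Real.log N < logSum (f d) (fun n h => F (g n ^ (n + h) * x n)) N H ∨
              C * (H : ℝ) ^ (1 / 2 + ε) * N < meanSum (f d) (fun n h => F (g n ^ (n + h) * x n)) N H)).card : ℝ) ≤
          C * D * (R₀ : ℝ) ^ (-A)) ∧
    (∀ (m : ℕ) (G : Set (Matrix (Fin m) (Fin m) ℝ)), Nilm G → ∀ F : Matrix (Fin m) (Fin m) ℝ → ℂ, ContinuousOn F G →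
      (∀ A ∈ G, ∀ γ : Matrix (Fin m) (Fin m) ℤ, rl γ ∈ G → F (A * rl γ) = F A) → ∀ (ε A : ℝ), 0 < ε → 0 < A →
      ∃ c C : ℝ, 0 < c ∧ 0 < C ∧ ∀ D R₀ : ℕ, 1 ≤ R₀ →
        (((Finset.Icc 1 D).filter fun d => Odd d ∧ ∃ N H : ℕ, R₀ ≤ H ∧ H ≤ N ∧ 2 ≤ N ∧ (N : ℝ) ≤ (D : ℝ) ^ c ∧
          ∃ g x : ℕ → Matrix (Fin m) (Fin m) ℝ, (∀ n, g n ∈ G) ∧ (∀ n, x n ∈ G) ∧
            ε * H * Real.log N < logSum (f d) (fun n h => F (g n ^ (n + h) * x n)) N H).card : ℝ) ≤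
          C * D * (R₀ : ℝ) ^ (-A)) := by
  have h1 : ∀ (m : ℕ) (F : Matrix (Fin m) (Fin m) ℝ → ℂ), LipNil F → ∀ (D₀ : ℕ) (ε A : ℝ), 0 < ε → 0 < A →
      ∃ c C : ℝ, 0 < c ∧ 0 < C ∧ ∀ D R₀ : ℕ, 1 ≤ R₀ →
        (((Finset.Icc 1 D).filter fun d => Odd d ∧ ∃ N H : ℕ, R₀ ≤ H ∧ 2 ≤ N ∧ (N : ℝ) ≤ (D : ℝ) ^ c ∧
          (H : ℝ) ≤ (D : ℝ) ^ c ∧ ∃ Q : ℕ → Matrix (Fin m) (Fin m) ℝ[X],
            (∀ n, Uni (Q n)) ∧ (∀ n i j, (Q n i j).natDegree ≤ D₀) ∧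
            (C * (H : ℝ) ^ (1 / 2 + ε) * Real.log N < logSum (f d) (fun n h => F (ev (Q n) h)) N H ∨
              C * (H : ℝ) ^ (1 / 2 + ε) * N < meanSum (f d) (fun n h => F (ev (Q n) h)) N H)).card : ℝ) ≤
          C * D * (R₀ : ℝ) ^ (-A) := by
    intro m F hF D₀ ε A hε hA
    exact Pool.Agent.N282.LU.Rc_quant (F := F) (fun A g hA hg => hF.1 A g hA hg) hF.2 D₀ ε A hε hA
  refine ⟨h1, ?_, ?_⟩
  · intro m F hF ε A hε hA
    obtain ⟨c, C, hc, hC, h2⟩ := h1 m F hF m ε A hε hA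
    refine ⟨c, C, hc, hC, fun D R₀ hR₀ => le_trans ?_ (h2 D R₀ hR₀)⟩
    have hsub : ((Finset.Icc 1 D).filter fun d => Odd d ∧ ∃ N H : ℕ, R₀ ≤ H ∧ 2 ≤ N ∧ (N : ℝ) ≤ (D : ℝ) ^ c ∧
          (H : ℝ) ≤ (D : ℝ) ^ c ∧ ∃ g x : ℕ → Matrix (Fin m) (Fin m) ℝ, (∀ n, Uni (g n)) ∧ (∀ n, Uni (x n)) ∧
            (C * (H : ℝ) ^ (1 / 2 + ε) * Real.log N < logSum (f d) (fun n h => F (g n ^ (n + h) * x n)) N H ∨
              C * (H : ℝ) ^ (1 / 2 + ε) * N < meanSum (f d) (fun n h => F (g n ^ (n + h) * x n)) N H)) ⊆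
        ((Finset.Icc 1 D).filter fun d => Odd d ∧ ∃ N H : ℕ, R₀ ≤ H ∧ 2 ≤ N ∧ (N : ℝ) ≤ (D : ℝ) ^ c ∧
          (H : ℝ) ≤ (D : ℝ) ^ c ∧ ∃ Q : ℕ → Matrix (Fin m) (Fin m) ℝ[X],
            (∀ n, Uni (Q n)) ∧ (∀ n i j, (Q n i j).natDegree ≤ m) ∧
            (C * (H : ℝ) ^ (1 / 2 + ε) * Real.log N < logSum (f d) (fun n h => F (ev (Q n) h)) N H ∨
              C * (H : ℝ) ^ (1 / 2 + ε) * N < meanSum (f d) (fun n h => F (ev (Q n) h)) N H)) := by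
      intro d hd
      rw [Finset.mem_filter] at hd
      obtain ⟨hd1, hd2, N, H, hRH, hN, hND, hHD, g, x, hg, hx, hor⟩ := hd
      rw [Finset.mem_filter]
      choose Q hQ hQd hQe using fun n => Pool.Agent.N318.LS.rot (hg n) (hx n) n
      refine ⟨hd1, hd2, N, H, hRH, hN, hND, hHD, Q, hQ, hQd, ?_⟩
      have e : (fun n h => F (ev (Q n) h)) = fun n h => F (g n ^ (n + h) * x n) := by
        funext n h
        congr 1
        exact hQe n h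
      rw [e]
      exact hor
    exact_mod_cast Finset.card_le_card hsub
  · intro m G hG F hF hFi ε A hε hA
    have hG' : Pool.Agent.N318.LS.Nilm G := ⟨hG.uni, hG.mul, hG.inv, hG.closed, hG.cocompact⟩
    obtain ⟨c, C, hc, hC, h2⟩ := Pool.Agent.N282.LU.Rc_qual hG' hF hFi m ε A hε hA
    refine ⟨c, C, hc, hC, fun D R₀ hR₀ => le_trans ?_ (h2 D R₀ hR₀)⟩
    have hsub : ((Finset.Icc 1 D).filter fun d => Odd d ∧ ∃ N H : ℕ, R₀ ≤ H ∧ H ≤ N ∧ 2 ≤ N ∧ (N : ℝ) ≤ (D : ℝ) ^ c ∧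
          ∃ g x : ℕ → Matrix (Fin m) (Fin m) ℝ, (∀ n, g n ∈ G) ∧ (∀ n, x n ∈ G) ∧
            ε * H * Real.log N < logSum (f d) (fun n h => F (g n ^ (n + h) * x n)) N H) ⊆
        ((Finset.Icc 1 D).filter fun d => Odd d ∧ ∃ N H : ℕ, R₀ ≤ H ∧ 2 ≤ N ∧ (N : ℝ) ≤ (D : ℝ) ^ c ∧
        (H : ℝ) ≤ (D : ℝ) ^ c ∧ ∃ Q : ℕ → Matrix (Fin m) (Fin m) ℝ[X],
        (∀ n h, Pool.Agent.N318.LS.ev (Q n) h ∈ G) ∧ (∀ n i j, (Q n i j).natDegree ≤ m) ∧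
        ε * H * Real.log N <
          ∑ n ∈ Finset.Icc 1 N, ‖∑ h ∈ Finset.Icc 1 H, F (Pool.Agent.N318.LS.ev (Q n) h) *
            (Pool.Agent.N282.GC.fj d (n + h) : ℂ)‖ / n) := by
      intro d hd
      rw [Finset.mem_filter] at hd
      obtain ⟨hd1, hd2, N, H, hRH, hHN, hN, hND, g, x, hg, hx, h3⟩ := hd
      rw [Finset.mem_filter]
      choose Q hQ hQd hQe using fun n => Pool.Agent.N318.LS.rot (hG.uni _ (hg n)) (hG.uni _ (hx n)) n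
      refine ⟨hd1, hd2, N, H, hRH, hN, hND, le_trans (by exact_mod_cast hHN) hND, Q, fun n h => ?_, hQd, ?_⟩
      · rw [hQe]
        exact Pool.Agent.N318.LS.pow_mem hG' (hg n) (hx n) _
      · refine lt_of_lt_of_eq h3 ?_
        unfold logSum
        refine Finset.sum_congr rfl fun n _ => ?_
        congr 2
        refine Finset.sum_congr rfl fun h _ => ?_
        rw [hQe n h]
        rfl
    exact_mod_cast Finset.card_le_card hsub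

end Pool.Agent.Results.MP_663568_nt.RealCharacterTwists
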